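import Pool.Agent.Helper37.KD.DefsC
import Pool.Agent.Helper37.KD.St.A1
import Pool.Agent.Helper37.KD.St.A3

/-! KD Part I, piece C2 -/

namespace KD.I.C2

open Finset

/-- the reflection `(x,y) ↦ (x,-y)` -/
def rho (d N : ℕ) : GG d N ≃+ GG d N := AddEquiv.prodCongr (AddEquiv.refl _) (AddEquiv.neg _)

theorem rho_apply {d N : ℕ} (w : GG d N) : rho d N w = (w.1, -w.2) := rfl

theorem n1_nonneg {d N : ℕ} (x : V d N) : 0 ≤ n1 x :=
  Finset.sum_nonneg fun _ _ => Nat.cast_nonneg _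

theorem n1_neg {d N : ℕ} (x : V d N) : n1 (-x) = n1 x := by
  unfold n1
  refine Finset.sum_congr rfl fun i _ => ?_
  rw [Pi.neg_apply, ZMod.natAbs_valMinAbs_neg]

theorem valMinAbs_neg_odd {N : ℕ} (hN : Odd N) (a : ZMod N) :
    (-a).valMinAbs = -a.valMinAbs := by
  refine ZMod.valMinAbs_neg_of_ne_half fun h => ?_
  rw [← h] at hN
  exact (Nat.not_odd_iff_even.mpr (even_two_mul _)) hN

theorem abs_valMinAbs_le {d N : ℕ} (x : V d N) (i : Fin d) :
    |((x i).valMinAbs : ℝ)| ≤ n1 x := by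
  unfold n1
  have h1 : |((x i).valMinAbs : ℝ)| = ((x i).valMinAbs.natAbs : ℝ) := by
    rw [Nat.cast_natAbs, Int.cast_abs]
  rw [h1]
  exact Finset.single_le_sum (f := fun i => ((x i).valMinAbs.natAbs : ℝ))
    (fun _ _ => Nat.cast_nonneg _) (mem_univ i)

/-- base case -/
theorem base {d : ℕ} {s c0 C0 C1 : ℝ} (E : Env d s c0 C0 C1) {ν : E.G → ℝ} (hν : IsP ν)
    {j : ℕ} (hj : j ≤ E.K) (i : Fin d) :
    Qf (cv (fun w : E.G => ((w.2 i).valMinAbs : ℝ) * E.q j w) (lev E.q ν j))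
      (lev E.q ν (j + 1)) ≤ E.Yk ν j := by
  have h := Qf_antisym (fun w : E.G => ((w.2 i).valMinAbs : ℝ) * E.q j w) (E.q j) (lev E.q ν j)
    (fun w : E.G => n1 w.2) (rho d E.N)
    (fun w => by rw [rho_apply, rho_apply, neg_neg])
    (fun z => E.q_pos hj z) (fun z => E.u_nonneg hν (by omega) z)
    (fun w => by
      have h1 := (E.ker j hj).symv w.1 w.2
      simp only [rho_apply, Pi.neg_apply, valMinAbs_neg_odd E.hodd, Int.cast_neg, neg_mul]
      rw [h1])
    (fun w => by rw [rho_apply]; exact (E.ker j hj).symv w.1 w.2)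
    (fun w => n1_nonneg _)
    (fun w => by simp only [rho_apply]; exact n1_neg _)
    (fun w => by
      rw [abs_mul, abs_of_pos (E.q_pos hj w)]
      exact mul_le_mul_of_nonneg_right (abs_valMinAbs_le _ _) (E.q_pos hj w).le)
  refine h.trans (le_of_eq ?_)
  unfold Env.Yk
  refine Finset.sum_congr rfl fun w _ => ?_
  congr 2
  rw [rho_apply, vs]
  refine Prod.ext ?_ ?_
  · simp
  · simp

/-- (b1) -/
theorem mm_bound {d : ℕ} {s c0 C0 C1 : ℝ} (E : Env d s c0 C0 C1) {ν : E.G → ℝ} (hν : IsP ν)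
    {k j : ℕ} (hj : j ≤ k) (hk : k ≤ E.K) (i : Fin d) :
    Qf (E.mm ν k j i) (lev E.q ν (k + 1)) ≤ E.Yk ν j := by
  obtain ⟨n, rfl⟩ := Nat.exists_eq_add_of_le hj
  unfold Env.mm
  rw [Nat.add_sub_cancel_left]
  clear hj
  induction n with
  | zero => exact base E hν hk i
  | succ n ih =>
    have ih' := ih (by omega)
    have h1 := Qf_cv_le (E.q (j + 1 + n)) (E.q (j + 1 + n))
      (lev (fun l => E.q (j + 1 + l))
        (cv (fun w : E.G => ((w.2 i).valMinAbs : ℝ) * E.q j w) (lev E.q ν j)) n)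
      (lev E.q ν (j + n + 1)) (fun z => E.q_pos (by omega) z)
      (fun z => E.u_nonneg hν (by omega) z)
      (fun z hz => absurd hz (E.u_pos hν (by omega) z).ne')
    have h2 : ∑ w, E.q (j + 1 + n) w ^ 2 / E.q (j + 1 + n) w = 1 := by
      rw [← E.q_mass (k := j + 1 + n) (by omega)]
      refine Finset.sum_congr rfl fun w _ => ?_
      have := (E.q_pos (k := j + 1 + n) (by omega) w).ne'
      field_simp
    rw [h2, one_mul] at h1
    rw [lev_succ]
    have h3 : lev E.q ν (j + (n + 1) + 1) = cv (E.q (j + 1 + n)) (lev E.q ν (j + n + 1)) := by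
      have e1 : j + (n + 1) = j + 1 + n := by omega
      have e2 : j + n + 1 = j + 1 + n := by omega
      rw [e2, ← lev_succ, e1]
    rw [h3]
    exact h1.trans ih'

end KD.I.C2
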