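import Pool.Agent.Helper37.KD.DefsC
import Pool.Agent.Helper37.KD.St.B2
import Pool.Agent.Helper37.KD.St.D2
import Pool.Agent.Helper37.KD.St.H1
import Pool.Agent.Helper37.KD.St.H2

/-! KD Part I, piece H3 -/

namespace KD.I.H3

open Finset

theorem n1_nonneg {d N : ℕ} (x : V d N) : 0 ≤ n1 x :=
  Finset.sum_nonneg fun _ _ => Nat.cast_nonneg _

theorem n1_add_le {d N : ℕ} (x y : V d N) : n1 (x + y) ≤ n1 x + n1 y := by
  unfold n1
  rw [← Finset.sum_add_distrib]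
  refine Finset.sum_le_sum fun i _ => ?_
  rw [Pi.add_apply]
  have h1 : ((x i + y i).valMinAbs.natAbs) ≤ (x i).valMinAbs.natAbs + (y i).valMinAbs.natAbs :=
    (ZMod.natAbs_valMinAbs_add_le (x i) (y i)).trans (Int.natAbs_add_le _ _)
  exact_mod_cast h1

theorem nrm_add_le {d N : ℕ} {r R : ℝ} (hr : 0 < r) (hR : 0 < R) (z w : GG d N) :
    nrm r R (z + w) ≤ nrm r R z + nrm r R w := by
  unfold nrm
  have h1 := div_le_div_of_nonneg_right (n1_add_le z.1 w.1) hR.le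
  have h2 := div_le_div_of_nonneg_right (n1_add_le z.2 w.2) hr.le
  rw [Prod.fst_add, Prod.snd_add]
  rw [add_div] at h1 h2
  linarith

theorem nrm_nonneg {d N : ℕ} {r R : ℝ} (hr : 0 < r) (hR : 0 < R) (z : GG d N) :
    0 ≤ nrm r R z :=
  add_nonneg (div_nonneg (n1_nonneg _) hR.le) (div_nonneg (n1_nonneg _) hr.le)

section

variable {G : Type*} [Fintype G] [AddCommGroup G]

theorem sum_mul_le {u f : G → ℝ} (hu : ∀ z, 0 ≤ u z) (hu1 : ∑ z, u z = 1) {A : ℝ}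
    (hA : 0 ≤ A) (h : ∑ z, u z * f z ^ 2 ≤ A ^ 2) : ∑ z, u z * f z ≤ A := by
  have h1 := Finset.sum_sq_le_sum_mul_sum_of_sq_le_mul (univ : Finset G) (r := fun z => u z * f z)
    (f := u) (g := fun z => u z * f z ^ 2) (fun z _ => hu z)
    (fun z _ => mul_nonneg (hu z) (sq_nonneg _)) (fun z _ => le_of_eq (by ring))
  rw [hu1, one_mul] at h1
  exact le_of_sq_le_sq (h1.trans h) hA

/-- the second moment of a convolution -/
theorem mom_cv {q u f : G → ℝ} (hq : ∀ z, 0 ≤ q z) (hq1 : ∑ z, q z = 1) (hu : ∀ z, 0 ≤ u z)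
    (hu1 : ∑ z, u z = 1) (hf : ∀ z, 0 ≤ f z) (hfa : ∀ z w, f (z + w) ≤ f z + f w) {A B : ℝ}
    (hA : 0 ≤ A) (hB : 0 ≤ B) (h1 : ∑ z, u z * f z ^ 2 ≤ A ^ 2)
    (h2 : ∑ z, q z * f z ^ 2 ≤ B ^ 2) : ∑ z, cv q u z * f z ^ 2 ≤ (A + B) ^ 2 := by
  have e1 : ∑ z, cv q u z * f z ^ 2 = ∑ w, q w * ∑ y, u y * f (y + w) ^ 2 := by
    unfold cv
    calc ∑ z, (∑ w, q w * u (z - w)) * f z ^ 2
        = ∑ z, ∑ w, q w * (u (z - w) * f z ^ 2) := by
          refine Finset.sum_congr rfl fun z _ => ?_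
          rw [Finset.sum_mul]
          exact Finset.sum_congr rfl fun w _ => by ring
      _ = ∑ w, ∑ z, q w * (u (z - w) * f z ^ 2) := Finset.sum_comm
      _ = _ := by
          refine Finset.sum_congr rfl fun w _ => ?_
          rw [← Finset.mul_sum]
          congr 1
          have := sum_shift_sub (fun y => u y * f (y + w) ^ 2) w
          rw [← this]
          refine Finset.sum_congr rfl fun z _ => ?_
          simp only [sub_add_cancel]
  have e2 : ∑ w, q w * ∑ y, u y * f (y + w) ^ 2 ≤ ∑ w, q w * ∑ y, u y * (f y + f w) ^ 2 := by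
    refine Finset.sum_le_sum fun w _ => mul_le_mul_of_nonneg_left ?_ (hq w)
    refine Finset.sum_le_sum fun y _ => mul_le_mul_of_nonneg_left ?_ (hu y)
    exact pow_le_pow_left₀ (hf _) (hfa y w) 2
  have e3 : ∑ w, q w * ∑ y, u y * (f y + f w) ^ 2 =
      (∑ z, u z * f z ^ 2) + 2 * (∑ z, u z * f z) * (∑ z, q z * f z) +
        ∑ z, q z * f z ^ 2 := by
    have e4 : ∀ w, ∑ y, u y * (f y + f w) ^ 2 =
        (∑ z, u z * f z ^ 2) + 2 * f w * (∑ z, u z * f z) + f w ^ 2 := by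
      intro w
      have : ∀ y, u y * (f y + f w) ^ 2 = u y * f y ^ 2 + 2 * f w * (u y * f y) +
          f w ^ 2 * u y := fun y => by ring
      simp only [this]
      rw [Finset.sum_add_distrib, Finset.sum_add_distrib, ← Finset.mul_sum, ← Finset.mul_sum, hu1,
        mul_one]
    simp only [e4]
    set a := ∑ z, u z * f z ^ 2
    set b := ∑ z, u z * f z
    have : ∀ w, q w * (a + 2 * f w * b + f w ^ 2) = a * q w + 2 * b * (q w * f w) +
        q w * f w ^ 2 := fun w => by ring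
    simp only [this]
    rw [Finset.sum_add_distrib, Finset.sum_add_distrib, ← Finset.mul_sum, ← Finset.mul_sum, hq1,
      mul_one]
  have h3 := sum_mul_le hu hu1 hA h1
  have h4 := sum_mul_le hq hq1 hB h2
  have h5 : 0 ≤ ∑ z, u z * f z := Finset.sum_nonneg fun z _ => mul_nonneg (hu z) (hf z)
  have h6 : 0 ≤ ∑ z, q z * f z := Finset.sum_nonneg fun z _ => mul_nonneg (hq z) (hf z)
  have h7 : (∑ z, u z * f z) * (∑ z, q z * f z) ≤ A * B := mul_le_mul h3 h4 h6 hA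
  rw [e1]
  refine e2.trans ?_
  rw [e3]
  nlinarith

end

/-- comparison of the norms at different scales -/
theorem nm_le {d : ℕ} {s c0 C0 C1 : ℝ} (hs : 0 < s) (E : Env d s c0 C0 C1) {i : ℕ}
    (hi : i ≤ E.K) (w : E.G) : E.nm E.K w ≤ (1 / 2) ^ (E.K - i) * E.nm i w := by
  obtain ⟨n, hn⟩ := Nat.exists_eq_add_of_le hi
  have hR : 2 ^ n * E.R i ≤ E.R E.K := by
    unfold Env.R Rad
    have h1 := tim_le_tim hs hi
    have h2 : (0:ℝ) ≤ E.M / E.ε * 2 ^ E.K :=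
      mul_nonneg (div_nonneg (zero_le_one.trans E.hM) E.hε.le) (by positivity)
    calc 2 ^ n * (E.M / E.ε * 2 ^ i * tim s i) = E.M / E.ε * 2 ^ E.K * tim s i := by
          rw [hn, pow_add]; ring
      _ ≤ _ := mul_le_mul_of_nonneg_left h1 h2
  have hRi := E.R_pos i
  have h2n : (0:ℝ) < 2 ^ n := by positivity
  have e1 : E.K - i = n := by omega
  rw [e1]
  unfold Env.nm nrm
  have h3 : n1 w.1 / E.R E.K ≤ (1 / 2) ^ n * (n1 w.1 / E.R i) := by
    calc n1 w.1 / E.R E.K ≤ n1 w.1 / (2 ^ n * E.R i) :=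
          div_le_div_of_nonneg_left (n1_nonneg _) (by positivity) hR
      _ = _ := by
          rw [one_div, inv_pow]
          field_simp
  have h4 : n1 w.2 / 2 ^ E.K = (1 / 2) ^ n * (n1 w.2 / 2 ^ i) := by
    rw [hn, pow_add, one_div, inv_pow]
    field_simp
  rw [h4, mul_add]
  linarith

/-- the moments of the levels -/
theorem lev_mom {d : ℕ} {s c0 C0 C1 : ℝ} (hs : 0 < s) (E : Env d s c0 C0 C1) {μ : E.G → ℝ}
    (hμ : IsP μ) {A B : ℝ} (hA : 0 ≤ A) (hB : 0 ≤ B) (h0 : ∑ z, μ z * E.nm E.K z ^ 2 ≤ A ^ 2)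
    (h1 : ∀ i ≤ E.K, ∑ z, E.q i z * E.nm i z ^ 2 ≤ B ^ 2) {k : ℕ} (hk : k ≤ E.K + 1) :
    ∑ z, lev E.q μ k z * E.nm E.K z ^ 2 ≤
      (A + B * ∑ i ∈ range k, (1 / 2 : ℝ) ^ (E.K - i)) ^ 2 := by
  induction k with
  | zero => simpa [lev_zero] using h0
  | succ k ih =>
    rw [lev_succ, Finset.sum_range_succ, mul_add, ← add_assoc]
    have hk' : k ≤ E.K := by omega
    refine mom_cv (fun z => (E.q_pos hk' z).le) (E.q_mass hk') (fun z => E.u_nonneg hμ (by omega) z)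
      (E.u_sum hμ (by omega)) (fun z => nrm_nonneg (by positivity) (E.R_pos _) z)
      (fun z w => nrm_add_le (by positivity) (E.R_pos _) z w) ?_ (by positivity) (ih (by omega)) ?_
    · exact add_nonneg hA (mul_nonneg hB (Finset.sum_nonneg fun i _ => by positivity))
    · calc ∑ z, E.q k z * E.nm E.K z ^ 2
          ≤ ∑ z, ((1 / 2 : ℝ) ^ (E.K - k)) ^ 2 * (E.q k z * E.nm k z ^ 2) := by
            refine Finset.sum_le_sum fun z _ => ?_
            have h2 := nm_le hs E hk' z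
            have h3 : 0 ≤ E.nm E.K z := nrm_nonneg (by positivity) (E.R_pos _) z
            have h4 := pow_le_pow_left₀ h3 h2 2
            calc E.q k z * E.nm E.K z ^ 2 ≤ E.q k z * ((1 / 2) ^ (E.K - k) * E.nm k z) ^ 2 :=
                  mul_le_mul_of_nonneg_left h4 (E.q_pos hk' z).le
              _ = _ := by ring
        _ = ((1 / 2 : ℝ) ^ (E.K - k)) ^ 2 * ∑ z, E.q k z * E.nm k z ^ 2 := by
            rw [Finset.mul_sum]
        _ ≤ ((1 / 2 : ℝ) ^ (E.K - k)) ^ 2 * B ^ 2 :=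
            mul_le_mul_of_nonneg_left (h1 k hk') (by positivity)
        _ = _ := by ring

theorem geom_le (K k : ℕ) (hk : k ≤ K + 1) : ∑ i ∈ range k, (1 / 2 : ℝ) ^ (K - i) ≤ 2 := by
  calc ∑ i ∈ range k, (1 / 2 : ℝ) ^ (K - i) ≤ ∑ i ∈ range (K + 1), (1 / 2 : ℝ) ^ (K - i) :=
        Finset.sum_le_sum_of_subset_of_nonneg (by
          intro i hi
          rw [Finset.mem_range] at hi ⊢
          omega) fun i _ _ => by positivity
    _ = ∑ i ∈ range (K + 1), (1 / 2 : ℝ) ^ i := by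
        rw [← Finset.sum_range_reflect]
        refine Finset.sum_congr rfl fun i hi => ?_
        rw [Finset.mem_range] at hi
        congr 1
        omega
    _ ≤ 2 := by
        have := sum_geometric_two_le (K + 1)
        exact this

/-- moments of the levels of the chain in the top norm -/
theorem level_moment (s lam Lam c0 C0 C1 : ℝ) (d : ℕ) (hd : 1 ≤ d) (hs : 0 < s) (hs1 : s < 1)
    (hlam : 0 < lam) (hLam : lam ≤ Lam) (hC0 : 0 < C0) (hC1 : 0 < C1) : ∃ C : ℝ, 0 < C ∧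
    ∀ K : ℕ, ∃ ε0 : ℝ, 0 < ε0 ∧
    ∀ (E : Env d s c0 C0 C1), E.K = K → E.ε ≤ ε0 →
    ∀ (M0 : ℝ) (a : ℕ → ℕ → E.Θ → E.G → ℝ), (∀ n, E.S.Coef lam Lam M0 (a n)) →
    ∀ n : ℕ, (n : ℝ) * E.ε ≤ tim s K → ∀ k ≤ K + 1,
      ∑ z, lev E.q (E.chain a n) k z * E.nm K z ^ 2 ≤ C := by
  obtain ⟨Cv, hCv, hv⟩ := chain_v_moment s lam Lam c0 C0 C1 d hd hs hs1 hlam hLam hC0
  obtain ⟨Cx, hCx, hx⟩ := chain_x_moment s lam Lam c0 C0 C1 d hd hs hs1 hlam hLam hC0
  obtain ⟨C2, hC2, h2⟩ := ker_moment d C1 2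
  refine ⟨(√(2 * Cx + 2 * Cv) + √C2 * 2) ^ 2, by positivity, fun K => ?_⟩
  obtain ⟨e1, he1, hv⟩ := hv K
  obtain ⟨e2, he2, hx⟩ := hx K
  obtain ⟨e3, he3, hp⟩ := chain_isP s lam Lam c0 C0 C1 d hs hlam hLam hC0 K
  refine ⟨min e1 (min e2 e3), by positivity, fun E hK hE M0 a ha n hn k hk => ?_⟩
  have hE1 : E.ε ≤ e1 := hE.trans (min_le_left _ _)
  have hE2 : E.ε ≤ e2 := hE.trans ((min_le_right _ _).trans (min_le_left _ _))
  have hE3 : E.ε ≤ e3 := hE.trans ((min_le_right _ _).trans (min_le_right _ _))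
  have hμ := hp E hK hE3 M0 a ha n
  have hmv := hv E hK hE1 M0 a ha n (hn.trans (by have := tim_pos s K; linarith))
  have hmx := hx E hK hE2 M0 a ha n hn
  subst hK
  have hR := E.R_pos E.K
  have h0 : ∑ z, E.chain a n z * E.nm E.K z ^ 2 ≤ √(2 * Cx + 2 * Cv) ^ 2 := by
    rw [Real.sq_sqrt (by positivity)]
    calc ∑ z, E.chain a n z * E.nm E.K z ^ 2
        ≤ ∑ z, (2 / E.R E.K ^ 2 * (E.chain a n z * n1 z.1 ^ 2) +
            2 / (2 ^ E.K) ^ 2 * (E.chain a n z * n1 z.2 ^ 2)) := by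
          refine Finset.sum_le_sum fun z _ => ?_
          have h3 : E.nm E.K z ^ 2 ≤ 2 * (n1 z.1 / E.R E.K) ^ 2 + 2 * (n1 z.2 / 2 ^ E.K) ^ 2 := by
            unfold Env.nm nrm
            nlinarith [sq_nonneg (n1 z.1 / E.R E.K - n1 z.2 / 2 ^ E.K)]
          calc E.chain a n z * E.nm E.K z ^ 2
              ≤ E.chain a n z * (2 * (n1 z.1 / E.R E.K) ^ 2 + 2 * (n1 z.2 / 2 ^ E.K) ^ 2) :=
                mul_le_mul_of_nonneg_left h3 (hμ.nn z)
            _ = _ := by rw [div_pow, div_pow]; ring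
      _ = 2 / E.R E.K ^ 2 * (∑ z, E.chain a n z * n1 z.1 ^ 2) +
            2 / (2 ^ E.K) ^ 2 * ∑ z, E.chain a n z * n1 z.2 ^ 2 := by
          rw [Finset.sum_add_distrib, ← Finset.mul_sum, ← Finset.mul_sum]
      _ ≤ 2 / E.R E.K ^ 2 * (Cx * E.R E.K ^ 2) + 2 / (2 ^ E.K) ^ 2 * (Cv * (2 ^ E.K) ^ 2) := by
          gcongr
      _ = _ := by field_simp
  have h1 : ∀ i ≤ E.K, ∑ z, E.q i z * E.nm i z ^ 2 ≤ √C2 ^ 2 := by
    intro i hi
    rw [Real.sq_sqrt hC2.le]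
    refine le_trans ?_ (h2 E.N (2 ^ i) (E.R i) (E.q i) (by positivity) (E.R_pos i) (E.ker i hi))
    refine Finset.sum_le_sum fun z _ => mul_le_mul_of_nonneg_left ?_ (E.q_pos hi z).le
    have h3 : 0 ≤ nrm (2 ^ i) (E.R i) z := nrm_nonneg (by positivity) (E.R_pos _) z
    unfold Env.nm
    nlinarith
  refine (lev_mom hs E hμ (Real.sqrt_nonneg _) (Real.sqrt_nonneg _) h0 h1 hk).trans ?_
  refine pow_le_pow_left₀ ?_ ?_ 2
  · exact add_nonneg (Real.sqrt_nonneg _)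
      (mul_nonneg (Real.sqrt_nonneg _) (Finset.sum_nonneg fun i _ => by positivity))
  · have := mul_le_mul_of_nonneg_left (geom_le E.K k hk) (Real.sqrt_nonneg C2)
    linarith

end KD.I.H3
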